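import Mathlib

/-!
Definitions: clubs and stationary subsets of `[A]^ω`, reflection for `[ω_2]^ω`,
trees and `ω_2`-Aronszajn trees.
-/

namespace Pool.Agent.MP_635355_lc

open Cardinal Ordinal Set

universe u v

/-- `C` is a club subset of `[A]^ω`, the set of countable subsets of `A`: it consists of countable
subsets of `A`, is closed under unions of increasing `ω`-chains, and is cofinal under `⊆`. -/
def IsClubIn {α : Type v} (A : Set α) (C : Set (Set α)) : Prop :=
  (∀ x ∈ C, x ⊆ A ∧ x.Countable) ∧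
  (∀ f : ℕ → Set α, Monotone f → (∀ n, f n ∈ C) → (⋃ n, f n) ∈ C) ∧
  (∀ x, x ⊆ A → x.Countable → ∃ y ∈ C, x ⊆ y)

/-- `S` is a stationary subset of `[A]^ω`: it consists of countable subsets of `A` and meets every
club subset of `[A]^ω`. -/
def IsStationaryIn {α : Type v} (A : Set α) (S : Set (Set α)) : Prop :=
  (∀ x ∈ S, x ⊆ A ∧ x.Countable) ∧ ∀ C, IsClubIn A C → (S ∩ C).Nonempty

/-- Every stationary subset `S` of `[ω_2]^ω` reflects to a set of size `ω_1`: there is `W ⊆ ω_2`
of size `ℵ_1` with `S ∩ [W]^ω` stationary in `[W]^ω`. -/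
def Reflection : Prop :=
  ∀ S : Set (Set Ordinal.{u}), IsStationaryIn (Iio (ω_ 2)) S →
    ∃ W : Set Ordinal.{u}, W ⊆ Iio (ω_ 2) ∧ #W = ℵ_ 1 ∧ IsStationaryIn W {x ∈ S | x ⊆ W}

/-- A tree: a partial order in which the strict predecessors of every node are well-ordered. -/
def IsTree (T : Type u) [PartialOrder T] : Prop :=
  ∀ t : T, IsWellOrder (Iio t) (· < ·)

/-- The height of a node: the order type of its strict predecessors. -/
noncomputable def height {T : Type u} [PartialOrder T] (h : IsTree T) (t : T) : Ordinal.{u} :=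
  @Ordinal.type (Iio t) (· < ·) (h t)

/-- An `ω_2`-Aronszajn tree: a tree of height `ω_2` (all heights are below `ω_2` and every
`α < ω_2` is a height) whose levels have size less than `ℵ_2`, with no branch of length `ω_2`
(a chain meeting every level). -/
def IsAronszajn (T : Type u) [PartialOrder T] : Prop :=
  ∃ h : IsTree T,
    (∀ t, height h t < ω_ 2) ∧ (∀ α < ω_ 2, ∃ t, height h t = α) ∧
    (∀ α < ω_ 2, #{t : T | height h t = α} < ℵ_ 2) ∧
    ¬ ∃ B : Set T, IsChain (· ≤ ·) B ∧ ∀ α < ω_ 2, ∃ t ∈ B, height h t = α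

end Pool.Agent.MP_635355_lc
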